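import Pool.Agent.Lib.MP_237b21_an.Main

/-! The best constant in the Khintchine inequality for negative moments on spheres. -/

namespace Pool.Agent.Results.MP_237b21_an.BestConstant

open Pool.Agent.Lib.MP_237b21_an

theorem result (m : ℕ) (hm : 2 ≤ m) (p : ℝ) (hp : -(m : ℝ) + 1 < p) (hp0 : p < 0) :
    best m p = ENNReal.ofReal (min (cTwo m p) (cInf m p)) :=
  main m hm p hp hp0

end Pool.Agent.Results.MP_237b21_an.BestConstant
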