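import Pool.Agent.Lib.MP_237b21_an.EQ.Main

/-! The extremisers of the Khintchine inequality for negative moments on spheres. -/

namespace Pool.Agent.Results.MP_237b21_an.Extremisers

open Pool.Agent.Lib.MP_237b21_an

theorem result (m : ℕ) (hm : 2 ≤ m) (p : ℝ) (hp : -(m : ℝ) + 1 < p) (hp0 : p < 0)
    (n : ℕ) (a : Fin n → ℝ) (ha : a ≠ 0) :
    (mom m n p a) ^ (1 / p) / ENNReal.ofReal (Real.sqrt (∑ j, a j ^ 2)) = best m p ↔
      cTwo m p ≤ cInf m p ∧ ∃ i j, i ≠ j ∧ |a i| = |a j| ∧ ∀ k, k ≠ i → k ≠ j → a k = 0 :=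
  EQ.main m hm p hp hp0 n a ha

end Pool.Agent.Results.MP_237b21_an.Extremisers
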